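import Mathlib

/-!
# A nearly Gorenstein numerical semigroup with four generators and four relations

The numerical semigroup `Γ = {0, 6, 7, 8, 9, 12, 13, 14, …}` generated by `6, 7, 8, 9` has the
pseudo-Frobenius numbers `10` and `11`. It is nearly Gorenstein and not almost symmetric, and over
every field its defining ideal is generated by the four binomials

`x₇² - x₆ x₈`, `x₇ x₈ - x₆ x₉`, `x₈² - x₇ x₉`, `x₆³ - x₉²`.

So `ρ(Γ) ≤ 4`. The coefficients at `x₇²`, `x₇ x₈`, `x₈²`, `x₉²` show `ρ(Γ) ≥ 4`.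
-/

set_option autoImplicit false

namespace Pool.Agent.Results.MP_8e9e7d_al.FourRelations

open MvPolynomial

/-- The integers that belong to the semigroup. -/
def ints (Γ : AddSubmonoid ℕ) : Set ℤ := {z | ∃ n ∈ Γ, (n : ℤ) = z}

/-- The minimal generators: the nonzero elements that are not sums of two nonzero elements. -/
def minGens (Γ : AddSubmonoid ℕ) : Set ℕ :=
  {g | g ∈ Γ ∧ g ≠ 0 ∧ ∀ a ∈ Γ, ∀ b ∈ Γ, a ≠ 0 → b ≠ 0 → a + b ≠ g}

/-- The pseudo-Frobenius numbers. -/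
def pseudoFrobenius (Γ : AddSubmonoid ℕ) : Set ℤ :=
  {x | x ∉ ints Γ ∧ ∀ s ∈ Γ, s ≠ 0 → x + s ∈ ints Γ}

/-- Almost symmetric; `F` is the Frobenius number, the largest integer outside the semigroup. -/
def AlmostSymmetric (Γ : AddSubmonoid ℕ) : Prop :=
  ∀ F : ℤ, IsGreatest {z : ℤ | z ∉ ints Γ} F → ∀ x : ℤ, x ∉ ints Γ →
    F - x ∈ ints Γ ∨ (x ∈ pseudoFrobenius Γ ∧ F - x ∈ pseudoFrobenius Γ)

/-- Nearly Gorenstein. -/
def NearlyGorenstein (Γ : AddSubmonoid ℕ) : Prop :=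
  ∀ g ∈ minGens Γ, ∃ p ∈ pseudoFrobenius Γ, ∀ q ∈ pseudoFrobenius Γ, (g : ℤ) + p - q ∈ ints Γ

/-- The homomorphism `k[x_g : g a minimal generator] → k[t]`, `x_g ↦ t^g`. -/
noncomputable def toricMap (k : Type) [Field k] (Γ : AddSubmonoid ℕ) :
    MvPolynomial (minGens Γ) k →ₐ[k] Polynomial k :=
  aeval fun g => Polynomial.X ^ (g : ℕ)

/-- The minimal number of generators of the defining ideal. -/
noncomputable def relations (k : Type) [Field k] (Γ : AddSubmonoid ℕ) : ℕ :=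
  Submodule.spanFinrank (RingHom.ker (toricMap k Γ))

/-- The semigroup `⟨6, 7, 8, 9⟩`. -/
def Γ₀ : AddSubmonoid ℕ where
  carrier := {n | n = 0 ∨ (6 ≤ n ∧ n ≤ 9) ∨ 12 ≤ n}
  zero_mem' := by simp
  add_mem' := by
    intro a b ha hb
    simp only [Set.mem_setOf_eq] at ha hb ⊢
    omega

lemma mem {n : ℕ} : n ∈ Γ₀ ↔ n = 0 ∨ (6 ≤ n ∧ n ≤ 9) ∨ 12 ≤ n := Iff.rfl

lemma mem_ints {z : ℤ} : z ∈ ints Γ₀ ↔ z = 0 ∨ (6 ≤ z ∧ z ≤ 9) ∨ 12 ≤ z := by
  constructor
  · rintro ⟨n, hn, rfl⟩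
    rw [mem] at hn
    omega
  · intro h
    refine ⟨z.toNat, ?_, by omega⟩
    rw [mem]
    omega

lemma mem_pf {x : ℤ} : x ∈ pseudoFrobenius Γ₀ ↔ x = 10 ∨ x = 11 := by
  constructor
  · rintro ⟨h, h'⟩
    have h6 := h' 6 (by rw [mem]; omega) (by norm_num)
    have h7 := h' 7 (by rw [mem]; omega) (by norm_num)
    have h8 := h' 8 (by rw [mem]; omega) (by norm_num)
    have h9 := h' 9 (by rw [mem]; omega) (by norm_num)
    rw [mem_ints] at h h6 h7 h8 h9
    push_cast at h6 h7 h8 h9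
    omega
  · intro h
    refine ⟨by rw [mem_ints]; omega, ?_⟩
    intro s hs h0
    rw [mem] at hs
    rw [mem_ints]
    omega

lemma mem_gens {g : ℕ} : g ∈ minGens Γ₀ ↔ g = 6 ∨ g = 7 ∨ g = 8 ∨ g = 9 := by
  constructor
  · rintro ⟨h, h0, h'⟩
    have a := h' 6 (by rw [mem]; omega) (g - 6)
    have b := h' 8 (by rw [mem]; omega) 8 (by rw [mem]; omega) (by norm_num) (by norm_num)
    have c := h' 8 (by rw [mem]; omega) 9 (by rw [mem]; omega) (by norm_num) (by norm_num)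
    rw [mem] at h a
    omega
  · intro h
    refine ⟨by rw [mem]; omega, by omega, ?_⟩
    intro a ha b hb h1 h2
    rw [mem] at ha hb
    omega

lemma edim : (minGens Γ₀).ncard = 4 := by
  have h : minGens Γ₀ = ((({6, 7, 8, 9} : Finset ℕ)) : Set ℕ) := by
    ext g
    rw [mem_gens]
    simp
  rw [h, Set.ncard_coe_finset]
  rfl

lemma nearly : NearlyGorenstein Γ₀ := by
  intro g hg
  rw [mem_gens] at hg
  by_cases h : g = 9
  · refine ⟨10, mem_pf.2 (Or.inl rfl), ?_⟩
    intro q hq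
    rw [mem_pf] at hq
    rw [mem_ints]
    omega
  · refine ⟨11, mem_pf.2 (Or.inr rfl), ?_⟩
    intro q hq
    rw [mem_pf] at hq
    rw [mem_ints]
    omega

lemma frob : IsGreatest {z : ℤ | z ∉ ints Γ₀} 11 := by
  constructor
  · simp only [Set.mem_setOf_eq, mem_ints]
    omega
  · intro z hz
    simp only [Set.mem_setOf_eq, mem_ints] at hz
    omega

lemma not_almost : ¬ AlmostSymmetric Γ₀ := by
  intro h
  have := h 11 frob 1 (by rw [mem_ints]; omega)
  simp only [mem_ints, mem_pf] at this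
  omega

section ideal

variable (k : Type) [Field k]

/-- the variable `x_6` -/
noncomputable def x6 : MvPolynomial (minGens Γ₀) k := X ⟨6, mem_gens.2 (by omega)⟩
/-- the variable `x_7` -/
noncomputable def x7 : MvPolynomial (minGens Γ₀) k := X ⟨7, mem_gens.2 (by omega)⟩
/-- the variable `x_8` -/
noncomputable def x8 : MvPolynomial (minGens Γ₀) k := X ⟨8, mem_gens.2 (by omega)⟩
/-- the variable `x_9` -/
noncomputable def x9 : MvPolynomial (minGens Γ₀) k := X ⟨9, mem_gens.2 (by omega)⟩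

/-- the four binomials -/
noncomputable def gens : Set (MvPolynomial (minGens Γ₀) k) :=
  {x7 k ^ 2 - x6 k * x8 k, x7 k * x8 k - x6 k * x9 k, x8 k ^ 2 - x7 k * x9 k,
    x6 k ^ 3 - x9 k ^ 2}

/-- the ideal that they generate -/
noncomputable def J : Ideal (MvPolynomial (minGens Γ₀) k) := Ideal.span (gens k)

lemma g1 : x7 k ^ 2 - x6 k * x8 k ∈ J k := Ideal.subset_span (by simp [gens])
lemma g2 : x7 k * x8 k - x6 k * x9 k ∈ J k := Ideal.subset_span (by simp [gens])
lemma g3 : x8 k ^ 2 - x7 k * x9 k ∈ J k := Ideal.subset_span (by simp [gens])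
lemma g4 : x6 k ^ 3 - x9 k ^ 2 ∈ J k := Ideal.subset_span (by simp [gens])

/-- the normal form of the monomials of degree `d` -/
noncomputable def nf (d : ℕ) : MvPolynomial (minGens Γ₀) k :=
  if d % 6 = 0 then x6 k ^ (d / 6)
  else if d % 6 = 1 then x6 k ^ ((d - 7) / 6) * x7 k
  else if d % 6 = 2 then x6 k ^ ((d - 8) / 6) * x8 k
  else if d % 6 = 3 then x6 k ^ ((d - 9) / 6) * x9 k
  else if d % 6 = 4 then x6 k ^ ((d - 16) / 6) * (x7 k * x9 k)
  else x6 k ^ ((d - 17) / 6) * (x8 k * x9 k)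

lemma nf0 (q d : ℕ) (h : d = 6 * q) : nf k d = x6 k ^ q := by
  have h1 : d % 6 = 0 := by omega
  have h2 : d / 6 = q := by omega
  simp [nf, h1, h2]

lemma nf1 (q d : ℕ) (h : d = 6 * q + 7) : nf k d = x6 k ^ q * x7 k := by
  have h1 : d % 6 = 1 := by omega
  have h2 : (d - 7) / 6 = q := by omega
  simp [nf, h1, h2]

lemma nf2 (q d : ℕ) (h : d = 6 * q + 8) : nf k d = x6 k ^ q * x8 k := by
  have h1 : d % 6 = 2 := by omega
  have h2 : (d - 8) / 6 = q := by omega
  simp [nf, h1, h2]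

lemma nf3 (q d : ℕ) (h : d = 6 * q + 9) : nf k d = x6 k ^ q * x9 k := by
  have h1 : d % 6 = 3 := by omega
  have h2 : (d - 9) / 6 = q := by omega
  simp [nf, h1, h2]

lemma nf4 (q d : ℕ) (h : d = 6 * q + 16) : nf k d = x6 k ^ q * (x7 k * x9 k) := by
  have h1 : d % 6 = 4 := by omega
  have h2 : (d - 16) / 6 = q := by omega
  simp [nf, h1, h2]

lemma nf5 (q d : ℕ) (h : d = 6 * q + 17) : nf k d = x6 k ^ q * (x8 k * x9 k) := by
  have h1 : d % 6 = 5 := by omega
  have h2 : (d - 17) / 6 = q := by omega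
  simp [nf, h1, h2]

lemma combo {a b c e y : MvPolynomial (minGens Γ₀) k}
    (h : y = a * (x7 k ^ 2 - x6 k * x8 k) + b * (x7 k * x8 k - x6 k * x9 k) +
      c * (x8 k ^ 2 - x7 k * x9 k) + e * (x6 k ^ 3 - x9 k ^ 2)) : y ∈ J k := by
  rw [h]
  exact (J k).add_mem ((J k).add_mem ((J k).add_mem ((J k).mul_mem_left _ (g1 k))
    ((J k).mul_mem_left _ (g2 k))) ((J k).mul_mem_left _ (g3 k))) ((J k).mul_mem_left _ (g4 k))

lemma shapes {d : ℕ} (hd : d ∈ Γ₀) : ∃ q : ℕ, d = 6 * q ∨ d = 6 * q + 7 ∨ d = 6 * q + 8 ∨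
    d = 6 * q + 9 ∨ d = 6 * q + 16 ∨ d = 6 * q + 17 := by
  rw [mem] at hd
  have : d % 6 < 6 := Nat.mod_lt _ (by norm_num)
  by_cases h0 : d % 6 = 0
  · exact ⟨d / 6, by omega⟩
  by_cases h1 : d % 6 = 1
  · exact ⟨(d - 7) / 6, by omega⟩
  by_cases h2 : d % 6 = 2
  · exact ⟨(d - 8) / 6, by omega⟩
  by_cases h3 : d % 6 = 3
  · exact ⟨(d - 9) / 6, by omega⟩
  by_cases h4 : d % 6 = 4
  · exact ⟨(d - 16) / 6, by omega⟩
  · exact ⟨(d - 17) / 6, by omega⟩

lemma step6 {d : ℕ} (hd : d ∈ Γ₀) : nf k d * x6 k - nf k (d + 6) ∈ J k := by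
  obtain ⟨q, h | h | h | h | h | h⟩ := shapes hd
  · rw [nf0 k q d h, nf0 k (q + 1) _ (by omega)]
    exact combo k (a := 0) (b := 0) (c := 0) (e := 0) (by ring)
  · rw [nf1 k q d h, nf1 k (q + 1) _ (by omega)]
    exact combo k (a := 0) (b := 0) (c := 0) (e := 0) (by ring)
  · rw [nf2 k q d h, nf2 k (q + 1) _ (by omega)]
    exact combo k (a := 0) (b := 0) (c := 0) (e := 0) (by ring)
  · rw [nf3 k q d h, nf3 k (q + 1) _ (by omega)]
    exact combo k (a := 0) (b := 0) (c := 0) (e := 0) (by ring)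
  · rw [nf4 k q d h, nf4 k (q + 1) _ (by omega)]
    exact combo k (a := 0) (b := 0) (c := 0) (e := 0) (by ring)
  · rw [nf5 k q d h, nf5 k (q + 1) _ (by omega)]
    exact combo k (a := 0) (b := 0) (c := 0) (e := 0) (by ring)

lemma step7 {d : ℕ} (hd : d ∈ Γ₀) : nf k d * x7 k - nf k (d + 7) ∈ J k := by
  obtain ⟨q, h | h | h | h | h | h⟩ := shapes hd
  · rw [nf0 k q d h, nf1 k q _ (by omega)]
    exact combo k (a := 0) (b := 0) (c := 0) (e := 0) (by ring)
  · rw [nf1 k q d h, nf2 k (q + 1) _ (by omega)]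
    exact combo k (a := x6 k ^ q) (b := 0) (c := 0) (e := 0) (by ring)
  · rw [nf2 k q d h, nf3 k (q + 1) _ (by omega)]
    exact combo k (a := 0) (b := x6 k ^ q) (c := 0) (e := 0) (by ring)
  · rw [nf3 k q d h, nf4 k q _ (by omega)]
    exact combo k (a := 0) (b := 0) (c := 0) (e := 0) (by ring)
  · rw [nf4 k q d h, nf5 k (q + 1) _ (by omega)]
    exact combo k (a := x6 k ^ q * x9 k) (b := 0) (c := 0) (e := 0) (by ring)
  · rw [nf5 k q d h, nf0 k (q + 4) _ (by omega)]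
    exact combo k (a := 0) (b := x6 k ^ q * x9 k) (c := 0) (e := - (x6 k ^ q * x6 k)) (by ring)

lemma step8 {d : ℕ} (hd : d ∈ Γ₀) : nf k d * x8 k - nf k (d + 8) ∈ J k := by
  obtain ⟨q, h | h | h | h | h | h⟩ := shapes hd
  · rw [nf0 k q d h, nf2 k q _ (by omega)]
    exact combo k (a := 0) (b := 0) (c := 0) (e := 0) (by ring)
  · rw [nf1 k q d h, nf3 k (q + 1) _ (by omega)]
    exact combo k (a := 0) (b := x6 k ^ q) (c := 0) (e := 0) (by ring)
  · rw [nf2 k q d h, nf4 k q _ (by omega)]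
    exact combo k (a := 0) (b := 0) (c := x6 k ^ q) (e := 0) (by ring)
  · rw [nf3 k q d h, nf5 k q _ (by omega)]
    exact combo k (a := 0) (b := 0) (c := 0) (e := 0) (by ring)
  · rw [nf4 k q d h, nf0 k (q + 4) _ (by omega)]
    exact combo k (a := 0) (b := x6 k ^ q * x9 k) (c := 0) (e := - (x6 k ^ q * x6 k)) (by ring)
  · rw [nf5 k q d h, nf1 k (q + 3) _ (by omega)]
    exact combo k (a := 0) (b := 0) (c := x6 k ^ q * x9 k) (e := - (x6 k ^ q * x7 k)) (by ring)

lemma step9 {d : ℕ} (hd : d ∈ Γ₀) : nf k d * x9 k - nf k (d + 9) ∈ J k := by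
  obtain ⟨q, h | h | h | h | h | h⟩ := shapes hd
  · rw [nf0 k q d h, nf3 k q _ (by omega)]
    exact combo k (a := 0) (b := 0) (c := 0) (e := 0) (by ring)
  · rw [nf1 k q d h, nf4 k q _ (by omega)]
    exact combo k (a := 0) (b := 0) (c := 0) (e := 0) (by ring)
  · rw [nf2 k q d h, nf5 k q _ (by omega)]
    exact combo k (a := 0) (b := 0) (c := 0) (e := 0) (by ring)
  · rw [nf3 k q d h, nf0 k (q + 3) _ (by omega)]
    exact combo k (a := 0) (b := 0) (c := 0) (e := - (x6 k ^ q)) (by ring)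
  · rw [nf4 k q d h, nf1 k (q + 3) _ (by omega)]
    exact combo k (a := 0) (b := 0) (c := 0) (e := - (x6 k ^ q * x7 k)) (by ring)
  · rw [nf5 k q d h, nf2 k (q + 3) _ (by omega)]
    exact combo k (a := 0) (b := 0) (c := 0) (e := - (x6 k ^ q * x8 k)) (by ring)

lemma step {d : ℕ} (hd : d ∈ Γ₀) (g : minGens Γ₀) : nf k d * X g - nf k (d + g) ∈ J k := by
  obtain ⟨g, hg⟩ := g
  have hg' := mem_gens.1 hg
  rcases hg' with rfl | rfl | rfl | rfl
  · exact step6 k hd
  · exact step7 k hd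
  · exact step8 k hd
  · exact step9 k hd

lemma mono (s : minGens Γ₀ →₀ ℕ) (a : k) : ∃ (c : k) (d : ℕ), d ∈ Γ₀ ∧
    toricMap k Γ₀ (monomial s a) = Polynomial.monomial d c ∧
    monomial s a - C c * nf k d ∈ J k := by
  refine MvPolynomial.induction_on_monomial (motive := fun p => ∃ (c : k) (d : ℕ), d ∈ Γ₀ ∧
    toricMap k Γ₀ p = Polynomial.monomial d c ∧ p - C c * nf k d ∈ J k) ?_ ?_ s a
  · intro a
    refine ⟨a, 0, Γ₀.zero_mem, ?_, ?_⟩
    · simp [toricMap, Polynomial.C_eq_algebraMap]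
    · rw [nf0 k 0 0 rfl]
      simp
  · rintro p g ⟨c, d, hd, h1, h2⟩
    refine ⟨c, d + g, Γ₀.add_mem hd g.2.1, ?_, ?_⟩
    · rw [map_mul, h1]
      simp [toricMap, Polynomial.monomial_mul_X_pow]
    · have e : p * X g - C c * nf k (d + g) = (p - C c * nf k d) * X g +
          C c * (nf k d * X g - nf k (d + g)) := by ring
      rw [e]
      exact (J k).add_mem ((J k).mul_mem_right _ h2) ((J k).mul_mem_left _ (step k hd g))

/-- the linear map `t^d ↦` normal form of degree `d` -/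
noncomputable def back : Polynomial k →ₗ[k] MvPolynomial (minGens Γ₀) k :=
  Polynomial.lsum fun d => LinearMap.toSpanSingleton k _ (nf k d)

lemma back_monomial (d : ℕ) (c : k) : back k (Polynomial.monomial d c) = C c * nf k d := by
  rw [back, Polynomial.lsum_apply, Polynomial.sum_monomial_index _ _ (by simp)]
  rw [LinearMap.toSpanSingleton_apply, MvPolynomial.smul_eq_C_mul]

lemma sub_back (f : MvPolynomial (minGens Γ₀) k) : f - back k (toricMap k Γ₀ f) ∈ J k := by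
  induction f using MvPolynomial.induction_on' with
  | monomial s a =>
    obtain ⟨c, d, -, h1, h2⟩ := mono k s a
    rw [h1, back_monomial]
    exact h2
  | add p q hp hq =>
    rw [map_add, map_add]
    have e : p + q - (back k (toricMap k Γ₀ p) + back k (toricMap k Γ₀ q)) =
      (p - back k (toricMap k Γ₀ p)) + (q - back k (toricMap k Γ₀ q)) := by ring
    rw [e]
    exact (J k).add_mem hp hq

lemma ker_eq : RingHom.ker (toricMap k Γ₀) = J k := by
  apply le_antisymm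
  · intro f hf
    have h := sub_back k f
    rw [RingHom.mem_ker] at hf
    rw [hf, map_zero, sub_zero] at h
    exact h
  · rw [J, Ideal.span_le]
    intro f hf
    simp only [gens, Set.mem_insert_iff, Set.mem_singleton_iff] at hf
    rw [SetLike.mem_coe, RingHom.mem_ker]
    rcases hf with rfl | rfl | rfl | rfl <;>
    · simp only [x6, x7, x8, x9, toricMap, map_sub, map_mul, map_pow, aeval_X]
      ring

lemma rel_le : relations k Γ₀ ≤ 4 := by
  rw [relations, ker_eq]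
  have hfin : (gens k).Finite := by
    unfold gens
    exact Set.toFinite _
  refine (Submodule.spanFinrank_span_le_ncard_of_finite hfin).trans ?_
  unfold gens
  refine (Set.ncard_insert_le _ _).trans ?_
  have h1 := Set.ncard_insert_le (x7 k * x8 k - x6 k * x9 k)
    ({x8 k ^ 2 - x7 k * x9 k, x6 k ^ 3 - x9 k ^ 2} : Set (MvPolynomial (minGens Γ₀) k))
  have h2 := Set.ncard_insert_le (x8 k ^ 2 - x7 k * x9 k)
    ({x6 k ^ 3 - x9 k ^ 2} : Set (MvPolynomial (minGens Γ₀) k))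
  rw [Set.ncard_singleton] at h2
  omega

/-! ### four relations are needed -/

/-- four monomials of degree two -/
noncomputable def ex : Fin 4 → (minGens Γ₀ →₀ ℕ) :=
  ![Finsupp.single ⟨7, mem_gens.2 (by omega)⟩ 2,
    Finsupp.single ⟨7, mem_gens.2 (by omega)⟩ 1 + Finsupp.single ⟨8, mem_gens.2 (by omega)⟩ 1,
    Finsupp.single ⟨8, mem_gens.2 (by omega)⟩ 2,
    Finsupp.single ⟨9, mem_gens.2 (by omega)⟩ 2]

lemma ex_degree (i : Fin 4) : (ex i).degree = 2 := by
  fin_cases i <;> simp [ex, Finsupp.degree_single, map_add]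

/-- the coefficients of the four monomials -/
noncomputable def Φ : MvPolynomial (minGens Γ₀) k →ₗ[k] (Fin 4 → k) where
  toFun f i := coeff (ex i) f
  map_add' f g := by
    funext i
    simp
  map_smul' a f := by
    funext i
    simp

lemma X_mem (g : minGens Γ₀) : (X g : MvPolynomial (minGens Γ₀) k) ∈ idealOfVars (minGens Γ₀) k :=
  Ideal.subset_span ⟨g, rfl⟩

lemma J_le : J k ≤ idealOfVars (minGens Γ₀) k ^ 2 := by
  rw [J, Ideal.span_le]
  have h2 : ∀ g h : minGens Γ₀, (X g * X h : MvPolynomial (minGens Γ₀) k) ∈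
      idealOfVars (minGens Γ₀) k ^ 2 := by
    intro g h
    rw [pow_two]
    exact Ideal.mul_mem_mul (X_mem k g) (X_mem k h)
  intro f hf
  simp only [gens, Set.mem_insert_iff, Set.mem_singleton_iff] at hf
  rw [SetLike.mem_coe]
  rcases hf with rfl | rfl | rfl | rfl
  · rw [pow_two (x7 k)]
    exact Ideal.sub_mem _ (h2 _ _) (h2 _ _)
  · exact Ideal.sub_mem _ (h2 _ _) (h2 _ _)
  · rw [pow_two (x8 k)]
    exact Ideal.sub_mem _ (h2 _ _) (h2 _ _)
  · have e : x6 k ^ 3 - x9 k ^ 2 = x6 k * (x6 k * x6 k) - x9 k * x9 k := by ring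
    rw [e]
    exact Ideal.sub_mem _ (Ideal.mul_mem_left _ _ (h2 _ _)) (h2 _ _)

lemma Φ_mul (p f : MvPolynomial (minGens Γ₀) k) (hf : f ∈ J k) :
    Φ k (p * f) = coeff 0 p • Φ k f := by
  classical
  funext i
  have hf2 := (mem_pow_idealOfVars_iff 2 f).1 (J_le k hf)
  change coeff (ex i) (p * f) = coeff 0 p * coeff (ex i) f
  rw [coeff_mul]
  refine Finset.sum_eq_single_of_mem ((0 : minGens Γ₀ →₀ ℕ), ex i) (by simp) ?_
  rintro ⟨a, b⟩ hab hne
  rw [Finset.HasAntidiagonal.mem_antidiagonal] at hab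
  dsimp only at hab ⊢
  by_cases hb : coeff b f = 0
  · rw [hb, mul_zero]
  · exfalso
    have h1 := hf2 b (mem_support_iff.2 hb)
    have h3 : a.degree + b.degree = 2 := by
      rw [← map_add, hab, ex_degree]
    have h4 : a.degree = 0 := by omega
    have h5 : a = 0 := (Finsupp.degree_eq_zero_iff a).1 h4
    apply hne
    rw [h5, zero_add] at hab
    rw [h5, hab]


lemma Φ_J (s : Set (MvPolynomial (minGens Γ₀) k)) (hs : Ideal.span s = J k)
    (f : MvPolynomial (minGens Γ₀) k) (hf : f ∈ J k) : Φ k f ∈ Submodule.span k (Φ k '' s) := by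
  rw [← hs] at hf
  induction hf using Submodule.span_induction with
  | mem x hx => exact Submodule.subset_span ⟨x, hx, rfl⟩
  | zero => rw [map_zero]; exact Submodule.zero_mem _
  | add x y _ _ hx hy => rw [map_add]; exact Submodule.add_mem _ hx hy
  | smul a x hx ih =>
    rw [smul_eq_mul, Φ_mul k a x (by rw [← hs]; exact hx)]
    exact Submodule.smul_mem _ _ ih

lemma ext4 (m m' : minGens Γ₀ →₀ ℕ) : m = m' ↔
    m ⟨6, mem_gens.2 (by omega)⟩ = m' ⟨6, mem_gens.2 (by omega)⟩ ∧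
    m ⟨7, mem_gens.2 (by omega)⟩ = m' ⟨7, mem_gens.2 (by omega)⟩ ∧
    m ⟨8, mem_gens.2 (by omega)⟩ = m' ⟨8, mem_gens.2 (by omega)⟩ ∧
    m ⟨9, mem_gens.2 (by omega)⟩ = m' ⟨9, mem_gens.2 (by omega)⟩ := by
  constructor
  · rintro rfl
    exact ⟨rfl, rfl, rfl, rfl⟩
  · rintro ⟨h6, h7, h8, h9⟩
    ext ⟨g, hg⟩
    rcases mem_gens.1 hg with rfl | rfl | rfl | rfl
    · exact h6
    · exact h7
    · exact h8
    · exact h9

lemma Φ_gens : ∀ i : Fin 4, ∃ f ∈ J k, ∃ c : k, c ≠ 0 ∧ Φ k f = c • Pi.single i (1 : k) := by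
  classical
  have e1 : x7 k ^ 2 - x6 k * x8 k =
      monomial (Finsupp.single ⟨7, mem_gens.2 (by omega)⟩ 2) (1 : k) -
      monomial (Finsupp.single ⟨6, mem_gens.2 (by omega)⟩ 1 +
        Finsupp.single ⟨8, mem_gens.2 (by omega)⟩ 1) (1 : k) := by
    simp only [x6, x7, x8, X, monomial_pow, monomial_mul, one_pow, mul_one, Finsupp.smul_single,
      smul_eq_mul]
  have e2 : x7 k * x8 k - x6 k * x9 k =
      monomial (Finsupp.single ⟨7, mem_gens.2 (by omega)⟩ 1 +
        Finsupp.single ⟨8, mem_gens.2 (by omega)⟩ 1) (1 : k) -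
      monomial (Finsupp.single ⟨6, mem_gens.2 (by omega)⟩ 1 +
        Finsupp.single ⟨9, mem_gens.2 (by omega)⟩ 1) (1 : k) := by
    simp only [x6, x7, x8, x9, X, monomial_pow, monomial_mul, one_pow, mul_one,
      Finsupp.smul_single, smul_eq_mul]
  have e3 : x8 k ^ 2 - x7 k * x9 k =
      monomial (Finsupp.single ⟨8, mem_gens.2 (by omega)⟩ 2) (1 : k) -
      monomial (Finsupp.single ⟨7, mem_gens.2 (by omega)⟩ 1 +
        Finsupp.single ⟨9, mem_gens.2 (by omega)⟩ 1) (1 : k) := by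
    simp only [x7, x8, x9, X, monomial_pow, monomial_mul, one_pow, mul_one,
      Finsupp.smul_single, smul_eq_mul]
  have e4 : x6 k ^ 3 - x9 k ^ 2 =
      monomial (Finsupp.single ⟨6, mem_gens.2 (by omega)⟩ 3) (1 : k) -
      monomial (Finsupp.single ⟨9, mem_gens.2 (by omega)⟩ 2) (1 : k) := by
    simp only [x6, x9, X, monomial_pow, one_pow, mul_one,
      Finsupp.smul_single, smul_eq_mul]
  intro i
  fin_cases i
  · refine ⟨_, g1 k, 1, one_ne_zero, ?_⟩
    rw [e1]
    funext j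
    fin_cases j <;> simp [Φ, ex, coeff_monomial, ext4, Finsupp.single_apply]
  · refine ⟨_, g2 k, 1, one_ne_zero, ?_⟩
    rw [e2]
    funext j
    fin_cases j <;> simp [Φ, ex, coeff_monomial, ext4, Finsupp.single_apply]
  · refine ⟨_, g3 k, 1, one_ne_zero, ?_⟩
    rw [e3]
    funext j
    fin_cases j <;> simp [Φ, ex, coeff_monomial, ext4, Finsupp.single_apply]
  · refine ⟨_, g4 k, -1, neg_ne_zero.2 one_ne_zero, ?_⟩
    rw [e4]
    funext j
    fin_cases j <;> simp [Φ, ex, coeff_monomial, ext4, Finsupp.single_apply]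

lemma rel_ge : 4 ≤ relations k Γ₀ := by
  classical
  rw [relations, ker_eq]
  have hfin : (gens k).Finite := by
    unfold gens
    exact Set.toFinite _
  have hfg : (J k).FG := Submodule.fg_span hfin
  obtain ⟨s, hs, hspan⟩ := Submodule.FG.exists_span_finset_card_eq_spanFinrank hfg
  rw [← hs]
  have htop : Submodule.span k ((s.image (Φ k) : Finset (Fin 4 → k)) : Set (Fin 4 → k)) = ⊤ := by
    rw [eq_top_iff, ← (Pi.basisFun k (Fin 4)).span_eq, Submodule.span_le]
    rintro _ ⟨i, rfl⟩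
    obtain ⟨f, hf, c, hc, hfc⟩ := Φ_gens k i
    have h1 := Φ_J k s hspan f hf
    rw [hfc] at h1
    have h2 := Submodule.smul_mem _ c⁻¹ h1
    rw [smul_smul, inv_mul_cancel₀ hc, one_smul] at h2
    rw [SetLike.mem_coe, Pi.basisFun_apply, Finset.coe_image]
    exact h2
  have h3 := finrank_span_finset_le_card (R := k) (s.image (Φ k))
  rw [Set.finrank, htop, finrank_top, Module.finrank_fin_fun] at h3
  exact h3.trans Finset.card_image_le

end ideal

theorem result : ∃ Γ : AddSubmonoid ℕ, {n : ℕ | n ∉ Γ}.Finite ∧ (minGens Γ).ncard = 4 ∧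
    NearlyGorenstein Γ ∧ ¬ AlmostSymmetric Γ ∧
    ∀ (k : Type) [Field k], relations k Γ = 4 := by
  refine ⟨Γ₀, ?_, edim, nearly, not_almost, ?_⟩
  · refine (Set.finite_lt_nat 12).subset ?_
    intro n hn
    simp only [Set.mem_setOf_eq, mem] at hn ⊢
    omega
  · intro k _
    exact le_antisymm (rel_le k) (rel_ge k)

end Pool.Agent.Results.MP_8e9e7d_al.FourRelations
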